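import Mathlib
import Pool.Prelude.Def_F_c31e40fa
import Pool.Agent.T2H09.AR.Fin

set_option autoImplicit false

open Filter Metric MeasureTheory

namespace Pool.Agent.Results.MP_af9036_an.AreaInequality

/-- The polynomial `z ^ n + c`. -/
def f (n : ℕ) (c : ℂ) : ℂ → ℂ := fun z => z ^ n + c

/-- The parameters `c` for which `z ^ n + c` has an attracting cycle. -/
def hyp (n : ℕ) : Set ℂ := {c | ∃ m z, N62a1eb23.IsAttractingCycle (f n c) m z}

/-- The filled Julia set: the points with a bounded orbit. -/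
def filled (n : ℕ) (c : ℂ) : Set ℂ := {z | ∃ M : ℝ, ∀ k, ‖(f n c)^[k] z‖ ≤ M}

/-- The square root of the area of the filled Julia set. -/
noncomputable def size (n : ℕ) (c : ℂ) : ℝ := Real.sqrt (volume.real (filled n c))

/-- The derivative of `f_c^m (z)` with respect to the parameter `c`. -/
noncomputable def Dpar (n : ℕ) (c z : ℂ) (m : ℕ) : ℂ := deriv (fun t => (f n t)^[m] z) c

/-- The derivative of `f_c^m (z)` with respect to the point `z`. -/
noncomputable def Ddyn (n : ℕ) (c z : ℂ) (m : ℕ) : ℂ := deriv (f n c)^[m] z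

/-- The area of the filled Julia set against the distances in the parameter plane. -/
theorem result : ∃ C : ℝ, 0 < C ∧ ∀ n : ℕ, 2 ≤ n → ∀ c ∈ N62a1eb23.multibrotSet n,
    -- (1) the distance to the parameters with an attracting cycle
    infDist c (hyp n) ≤ C * size n c ∧
    -- (2) the distance to the complement of the Multibrot set
    (∀ r : ℝ, 0 < r → ball c r ⊆ N62a1eb23.multibrotSet n → r ≤ C * size n c) ∧
    -- (3) the two derivatives of the iterates at the points which are not in the interior of the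
    -- filled Julia set and at the points of the critical orbit
    (∀ r : ℝ, 0 < r → ball c r ⊆ N62a1eb23.multibrotSet n →
      ∀ z : ℂ, (z ∈ interior (filled n c) → ∃ k : ℕ, z = (f n c)^[k] 0) → ∀ m : ℕ,
        r * ‖Dpar n c z m‖ ≤ C * size n c * (1 + ‖Ddyn n c z m‖)) ∧
    -- (4) the same with the distance to the parameters with an attracting cycle
    (∀ z : ℂ, (z ∈ interior (filled n c) → ∃ k : ℕ, z = (f n c)^[k] 0) → ∀ m : ℕ,
        infDist c (hyp n) * ‖Dpar n c z m‖ ≤ C * size n c * (1 + ‖Ddyn n c z m‖)) := by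
  obtain ⟨C₁, hC₁, h1⟩ := Pool.Agent.T2H09.AR.all_z
  obtain ⟨C₂, hC₂, h2⟩ := Pool.Agent.T2H09.AR.crit_z
  refine ⟨C₁ + C₂, by positivity, fun n hn c hc => ?_⟩
  have hs : 0 ≤ size n c := Real.sqrt_nonneg _
  have e1 : ∀ z m, Dpar n c z m = Pool.Agent.T2H09.AR.E n c z m := fun z m =>
    (Pool.Agent.T2H09.AR.hasDerivAt_E (n := n) (c := c) z m).deriv
  have e2 : ∀ z m, Ddyn n c z m = Pool.Agent.W746.LD.P n c z m := fun z m =>
    (Pool.Agent.W746.LD.hasDerivAt_orb (n := n) (c := c) z m).deriv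
  have h3 : ∀ r : ℝ, 0 < r → ball c r ⊆ N62a1eb23.multibrotSet n →
      ∀ z : ℂ, (z ∈ interior (filled n c) → ∃ k : ℕ, z = (f n c)^[k] 0) → ∀ m : ℕ,
        r * ‖Dpar n c z m‖ ≤ (C₁ + C₂) * size n c * (1 + ‖Ddyn n c z m‖) := by
    intro r hr hb z hz m
    rw [e1, e2]
    have hP := norm_nonneg (Pool.Agent.W746.LD.P n c z m)
    by_cases hint : z ∈ interior (filled n c)
    · obtain ⟨k, rfl⟩ := hz hint
      have h4 := h2 n c r hn hr hb k m
      refine h4.trans ?_
      show C₂ * size n c * (1 + ‖Pool.Agent.W746.LD.P n c (Pool.Agent.W746.LD.orb n c 0 k) m‖) ≤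
        (C₁ + C₂) * size n c *
          (1 + ‖Pool.Agent.W746.LD.P n c (Pool.Agent.W746.LD.orb n c 0 k) m‖)
      gcongr
      linarith
    · have h4 := h1 n c r hn hr hb z hint m
      refine h4.trans ?_
      show C₁ * size n c * _ ≤ (C₁ + C₂) * size n c * _
      gcongr
      linarith
  have h4 : ∀ z : ℂ, (z ∈ interior (filled n c) → ∃ k : ℕ, z = (f n c)^[k] 0) → ∀ m : ℕ,
        infDist c (hyp n) * ‖Dpar n c z m‖ ≤ (C₁ + C₂) * size n c * (1 + ‖Ddyn n c z m‖) := by
    intro z hz m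
    rcases (infDist_nonneg (x := c) (s := hyp n)).eq_or_lt with h0 | h0
    · rw [← h0, zero_mul]
      positivity
    · exact h3 _ h0 (Pool.Agent.T2H09.AR.ball_hyp hn hc h0) z hz m
  have hP0 : Dpar n c 0 1 = 1 := by
    rw [e1, Pool.Agent.T2H09.AR.E_succ, Pool.Agent.T2H09.AR.E_zero, mul_zero, zero_add]
  have hD0 : Ddyn n c 0 1 = 0 := by
    rw [e2, Pool.Agent.W746.LD.P_succ, Pool.Agent.W746.LD.orb_zero, zero_pow (by omega), mul_zero,
      mul_zero]
  refine ⟨?_, ?_, h3, h4⟩
  · have h5 := h4 0 (fun _ => ⟨0, rfl⟩) 1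
    rw [hP0, hD0, norm_one, norm_zero] at h5
    linarith
  · intro r hr hb
    have h5 := h3 r hr hb 0 (fun _ => ⟨0, rfl⟩) 1
    rw [hP0, hD0, norm_one, norm_zero] at h5
    linarith

end Pool.Agent.Results.MP_af9036_an.AreaInequality
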