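import Mathlib
import Pool.Prelude.Def_F_c31e40fa
import Pool.Agent.T2H09.LW.Pseudo

set_option autoImplicit false

open Filter Metric

namespace Pool.Agent.Results.MP_af9036_an.ClosingLemma

/-- The polynomial `z ^ n + c`. -/
def f (n : ℕ) (c : ℂ) : ℂ → ℂ := fun z => z ^ n + c

/-- The parameters `c` for which `z ^ n + c` has an attracting cycle. -/
def hyp (n : ℕ) : Set ℂ := {c | ∃ m z, N62a1eb23.IsAttractingCycle (f n c) m z}

/-- There is a parameter `c'` with `|c' - c| ≤ s` such that `z ^ n + c'` has an attracting cycle of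
period at most `N`. -/
def Near (n N : ℕ) (c : ℂ) (s : ℝ) : Prop :=
  ∃ c' : ℂ, ‖c' - c‖ ≤ s ∧ ∃ p ≤ N, ∃ z, N62a1eb23.IsAttractingCycle (f n c') p z

/-- An almost periodic orbit that starts near the critical value gives a nearby parameter with an
attracting cycle. -/
theorem result (n : ℕ) (hn : 2 ≤ n) : ∃ C ε : ℝ, 0 < C ∧ 0 < ε ∧
    -- (1) one return
    (∀ c ∈ N62a1eb23.multibrotSet n, ∀ N : ℕ, 2 ≤ N → ∀ z : ℂ,
      max ‖z - c‖ ‖(f n c)^[N] z - z‖ ≤ Real.exp (-(C * Real.log N ^ 2)) →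
      Near n (N + 2) c (max ‖z - c‖ ‖(f n c)^[N] z - z‖ ^ (ε / Real.log N))) ∧
    -- (2) infinitely many returns
    (∀ c ∈ N62a1eb23.multibrotSet n,
      (∃ᶠ N : ℕ in atTop, ∃ z : ℂ,
        max ‖z - c‖ ‖(f n c)^[N] z - z‖ ≤ Real.exp (-(C * Real.log N ^ 2))) →
      c ∈ closure (hyp n)) := by
  obtain ⟨C, ε, hC, hε, h⟩ := Pool.Agent.T2H09.LW.pseudo hn
  refine ⟨C, ε, hC, hε, fun c hc N hN z hz => h c hc N hN z hz, ?_⟩
  intro c hc hf
  apply Pool.Agent.T2H09.LW.closure_of_near2 (ε := ε * C) (by positivity)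
  refine (hf.and_eventually (eventually_ge_atTop 2)).mono ?_
  rintro N ⟨⟨z, h3⟩, hN⟩
  exact Pool.Agent.T2H09.LV.Near.mono (h c hc N hN z h3) le_rfl
    (Pool.Agent.T2H09.LW.rpow_le_of_le2 hε hN (le_max_of_le_left (norm_nonneg _)) h3)

end Pool.Agent.Results.MP_af9036_an.ClosingLemma
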