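import Mathlib
import Pool.Prelude.Def_F_c31e40fa
import Pool.Agent.T2H09.PB.Gate

set_option autoImplicit false

open Filter Metric Topology

namespace Pool.Agent.Results.MP_af9036_an.ParabolicDensity

/-- The polynomial `z ^ d + c`. -/
def f (d : ℕ) (c : ℂ) : ℂ → ℂ := fun z => z ^ d + c

/-- The parameters `c` for which `z ^ d + c` has an attracting cycle. -/
def hyp (d : ℕ) : Set ℂ := {c | ∃ m z, N62a1eb23.IsAttractingCycle (f d c) m z}

/-- The derivative of the `n`-th iterate of `z ^ d + c` at the point `z`. -/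
noncomputable def mult (d n : ℕ) (c z : ℂ) : ℂ := deriv (f d c)^[n] z

/-- Density of hyperbolicity at `c₀` with the power `a` of the distance: for all parameters, and for
all holomorphic discs, with centre near `c₀`, in open sets of parameters without attracting cycles. -/
def DensePower (d : ℕ) (c₀ : ℂ) (a : ℝ) : Prop :=
  ∃ C η : ℝ, 0 < C ∧ 0 < η ∧ (∀ c : ℂ, infDist c (hyp d) ≤ C * ‖c - c₀‖ ^ a) ∧
    ∀ V : Set ℂ, IsOpen V → (∀ c ∈ V, c ∉ hyp d) → ∀ γ : ℂ → ℂ, DifferentiableOn ℂ γ (ball 0 1) →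
      (∀ s ∈ ball (0 : ℂ) 1, γ s ∈ V) → ‖γ 0 - c₀‖ < η → ‖deriv γ 0‖ ≤ C * ‖γ 0 - c₀‖ ^ a

private lemma mult_eq (d n : ℕ) (c z : ℂ) : mult d n c z = Pool.Agent.W746.LD.P d c z n :=
  (Pool.Agent.W746.LD.hasDerivAt_orb (n := d) (c := c) z n).deriv

private lemma dense_of {d : ℕ} (hd : 2 ≤ d) {c₀ : ℂ} {a : ℝ} (ha : 1 ≤ a)
    (h0 : infDist c₀ (Pool.Agent.T2H09.DH.Hy d) = 0) {C η : ℝ} (hC : 0 < C) (hη : 0 < η)
    (h : ∀ γ : ℂ → ℂ, DifferentiableOn ℂ γ (ball 0 1) →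
      (∀ s ∈ ball (0 : ℂ) 1, ∀ (N : ℕ) (z : ℂ), 1 ≤ N →
        Pool.Agent.W746.LD.orb d (γ s) z N = z → 1 < ‖Pool.Agent.W746.LD.P d (γ s) z N‖) →
      ‖γ 0 - c₀‖ < η → ‖deriv γ 0‖ ≤ C * ‖γ 0 - c₀‖ ^ a) : DensePower d c₀ a := by
  obtain ⟨C', hC', h1⟩ := Pool.Agent.T2H09.PB.all_dist h0 hC hη ha fun c hc =>
    Pool.Agent.T2H09.PB.to_dist hd (φ := fun x => x ^ a) hC h hc (by positivity)
  refine ⟨C + C', η, by positivity, hη, ?_, ?_⟩
  · intro c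
    have h2 := h1 c
    have h3 : 0 ≤ ‖c - c₀‖ ^ a := by positivity
    have h4 : infDist c (hyp d) = infDist c (Pool.Agent.T2H09.DH.Hy d) := rfl
    rw [h4]
    nlinarith
  · intro V hV hno γ hγ hγV hclose
    have h2 := h γ hγ (fun s hs N z hN hz =>
      Pool.Agent.T2H09.IX.rep_open hd hV hno (hγV s hs) hN hz) hclose
    have h3 : 0 ≤ ‖γ 0 - c₀‖ ^ a := by positivity
    nlinarith

/-- Density of hyperbolicity at the parabolic parameters. -/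
theorem result :
    -- (1) all parabolic parameters: the exponent `3 / 2`
    (∀ d : ℕ, 2 ≤ d → ∀ (c₀ z₀ : ℂ) (n q : ℕ), 1 ≤ n → 1 ≤ q → (f d c₀)^[n] z₀ = z₀ →
      mult d n c₀ z₀ ^ q = 1 → DensePower d c₀ (3 / 2)) ∧
    -- (2) satellite parabolic parameters: the exponent `2`
    (∀ d : ℕ, 2 ≤ d → ∀ (c₀ z₀ : ℂ) (n q : ℕ), 1 ≤ n → 1 ≤ q → (f d c₀)^[n] z₀ = z₀ →
      mult d n c₀ z₀ ^ q = 1 → mult d n c₀ z₀ ≠ 1 → DensePower d c₀ 2) ∧
    -- (3) the exponent `3 / 2` is optimal at the cusp `1 / 4` of the Mandelbrot set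
    ((f 2 (1 / 4))^[1] (1 / 2) = 1 / 2 ∧ mult 2 1 (1 / 4) (1 / 2) = 1 ∧
      ∀ x : ℝ, 0 < x → x ≤ 1 → x ^ (3 / 2 : ℝ) / 54000 ≤ infDist ((1 / 4 + x : ℝ) : ℂ) (hyp 2)) := by
  refine ⟨?_, ?_, ?_, ?_, ?_⟩
  · intro d hd c₀ z₀ n q hn hq hz hP
    rw [mult_eq] at hP
    have hN : 1 ≤ n * q := Nat.mul_pos hn hq
    have hz' : Pool.Agent.W746.LD.orb d c₀ z₀ n = z₀ := hz
    obtain ⟨h1, h2⟩ := Pool.Agent.T2H09.IX.P_mul hz' q
    rw [hP] at h2
    obtain ⟨C, η, hC, hη, h⟩ := Pool.Agent.T2H09.PB.cusp hd hN h1 h2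
    refine dense_of hd (by norm_num) (Pool.Agent.T2H09.PB.infDist_parabolic hd hN h1 (by
      rw [h2, norm_one])) hC hη ?_
    intro γ hγ hrep hclose
    have h3 := h γ hγ (fun s hs z hz => hrep s hs _ z hN hz) hclose
    refine h3.trans (le_of_eq ?_)
    congr 1
    rcases (norm_nonneg (γ 0 - c₀)).eq_or_lt with h4 | h4
    · rw [← h4, zero_mul, Real.zero_rpow (by norm_num)]
    · rw [Real.sqrt_eq_rpow, show (3 / 2 : ℝ) = 1 + 1 / 2 by norm_num, Real.rpow_add h4,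
        Real.rpow_one]
  · intro d hd c₀ z₀ n q hn hq hz hP hP1
    rw [mult_eq] at hP hP1
    have hz' : Pool.Agent.W746.LD.orb d c₀ z₀ n = z₀ := hz
    obtain ⟨C, η, hC, hη, h⟩ := Pool.Agent.T2H09.PB.satellite hd hn hq hz' hP1 hP
    refine dense_of hd (by norm_num) (Pool.Agent.T2H09.PB.infDist_parabolic hd hn hz' (by
      rw [Complex.norm_eq_one_of_pow_eq_one hP (by omega)])) hC hη ?_
    intro γ hγ hrep hclose
    have h3 := h γ hγ hrep hclose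
    rwa [← Real.rpow_natCast, Nat.cast_ofNat] at h3
  · norm_num [f]
  · rw [mult_eq, Pool.Agent.W746.LD.P_succ, Pool.Agent.W746.LD.P_zero, Pool.Agent.W746.LD.orb_zero]
    norm_num
  · intro x hx hx1
    have h := Pool.Agent.T2H09.PB.cusp_sharp hx hx1
    push_cast
    exact h

end Pool.Agent.Results.MP_af9036_an.ParabolicDensity
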