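import Mathlib
import Pool.Prelude.Def_F_c31e40fa
import Pool.Agent.T2H09.LW.Cor2

set_option autoImplicit false

open Filter Metric

namespace Pool.Agent.Results.MP_af9036_an.QuasiPolynomialGrowth

/-- The polynomial `z ^ n + c`. -/
def f (n : ℕ) (c : ℂ) : ℂ → ℂ := fun z => z ^ n + c

/-- The parameters `c` for which `z ^ n + c` has an attracting cycle. -/
def hyp (n : ℕ) : Set ℂ := {c | ∃ m z, N62a1eb23.IsAttractingCycle (f n c) m z}

/-- The derivative of the `N`-th iterate at the critical value `c`. -/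
noncomputable def P (n : ℕ) (c : ℂ) (N : ℕ) : ℂ := deriv (f n c)^[N] c

/-- There is a parameter `c'` with `|c' - c| ≤ s` such that `z ^ n + c'` has an attracting cycle of
period at most `N`. -/
def Near (n N : ℕ) (c : ℂ) (s : ℝ) : Prop :=
  ∃ c' : ℂ, ‖c' - c‖ ≤ s ∧ ∃ p ≤ N, ∃ z, N62a1eb23.IsAttractingCycle (f n c') p z

private lemma P_eq (n : ℕ) (c : ℂ) (N : ℕ) : P n c N = Pool.Agent.W746.LD.P n c c N :=
  (Pool.Agent.W746.LD.hasDerivAt_orb (n := n) (c := c) c N).deriv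

/-- Growth of the derivatives at the critical value, or separation of orbits near the critical
value, at the rate `N ^ (C log N)`, give nearby parameters with an attracting cycle. -/
theorem result (n : ℕ) (hn : 2 ≤ n) : ∃ C ε : ℝ, 0 < C ∧ 0 < ε ∧
    -- (1) one large derivative
    (∀ c ∈ N62a1eb23.multibrotSet n, ∀ N : ℕ, 2 ≤ N →
      Real.exp (C * Real.log N ^ 2) ≤ ‖P n c N‖ →
      Near n (N + 2) c ((‖P n c N‖⁻¹) ^ (ε / Real.log N))) ∧
    -- (2) one point near the critical value whose orbit separates from the one of `c`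
    (∀ c ∈ N62a1eb23.multibrotSet n, ∀ N : ℕ, 2 ≤ N → ∀ z : ℂ,
      ‖z - c‖ ≤ Real.exp (-(C * Real.log N ^ 2)) → √‖z - c‖ < ‖(f n c)^[N] z - (f n c)^[N] c‖ →
      Near n (N + 2) c (‖z - c‖ ^ (ε / Real.log N))) ∧
    -- (3) infinitely many such times
    (∀ c ∈ N62a1eb23.multibrotSet n,
      (∃ᶠ N : ℕ in atTop, Real.exp (C * Real.log N ^ 2) ≤ ‖P n c N‖ ∨
        ∃ z : ℂ, ‖z - c‖ ≤ Real.exp (-(C * Real.log N ^ 2)) ∧
          √‖z - c‖ < ‖(f n c)^[N] z - (f n c)^[N] c‖) →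
      c ∈ closure (hyp n)) := by
  obtain ⟨C1, ε1, hC1, hε1, h1⟩ := Pool.Agent.T2H09.LW.growV2 hn
  obtain ⟨C2, ε2, hC2, hε2, h2⟩ := Pool.Agent.T2H09.LW.sepV2 hn
  have hm : 0 < min ε1 ε2 := lt_min hε1 hε2
  have key1 : ∀ c ∈ N62a1eb23.multibrotSet n, ∀ N : ℕ, 2 ≤ N →
      Real.exp ((C1 + C2) * Real.log N ^ 2) ≤ ‖P n c N‖ →
      Near n (N + 2) c ((‖P n c N‖⁻¹) ^ (min ε1 ε2 / Real.log N)) := by
    intro c hc N hN hP
    rw [P_eq] at hP ⊢
    have hl : 0 < Real.log N := Real.log_pos (by exact_mod_cast (by omega : 1 < N))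
    have hl2 : 0 < Real.log N ^ 2 := by positivity
    have h3 := h1 c hc N hN (le_trans (Real.exp_le_exp.mpr (by nlinarith)) hP)
    refine Pool.Agent.T2H09.LV.Near.mono h3 le_rfl ?_
    have hP1 : 1 ≤ ‖Pool.Agent.W746.LD.P n c c N‖ :=
      le_trans (Real.one_le_exp (by positivity)) hP
    apply Real.rpow_le_rpow_of_exponent_ge (inv_pos.mpr (by linarith)) (inv_le_one_of_one_le₀ hP1)
    gcongr
    exact min_le_left _ _
  have key2 : ∀ c ∈ N62a1eb23.multibrotSet n, ∀ N : ℕ, 2 ≤ N → ∀ z : ℂ,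
      ‖z - c‖ ≤ Real.exp (-((C1 + C2) * Real.log N ^ 2)) →
      √‖z - c‖ < ‖(f n c)^[N] z - (f n c)^[N] c‖ →
      Near n (N + 2) c (‖z - c‖ ^ (min ε1 ε2 / Real.log N)) := by
    intro c hc N hN z hzc hz
    have hl : 0 < Real.log N := Real.log_pos (by exact_mod_cast (by omega : 1 < N))
    have hl2 : 0 < Real.log N ^ 2 := by positivity
    have h3 := h2 c hc N hN z (hzc.trans (Real.exp_le_exp.mpr (by nlinarith))) hz
    refine Pool.Agent.T2H09.LV.Near.mono h3 le_rfl ?_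
    have hzc0 : 0 < ‖z - c‖ := by
      rw [norm_pos_iff, sub_ne_zero]
      rintro rfl
      rw [sub_self, sub_self, norm_zero, Real.sqrt_zero] at hz
      exact lt_irrefl _ hz
    have hzc1 : ‖z - c‖ ≤ 1 := by
      refine hzc.trans ?_
      rw [Real.exp_le_one_iff]
      have : 0 ≤ (C1 + C2) * Real.log N ^ 2 := by positivity
      linarith
    apply Real.rpow_le_rpow_of_exponent_ge hzc0 hzc1
    gcongr
    exact min_le_right _ _
  refine ⟨C1 + C2, min ε1 ε2, by positivity, hm, key1, key2, ?_⟩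
  intro c hc hf
  apply Pool.Agent.T2H09.LW.closure_of_near2 (ε := min ε1 ε2 * (C1 + C2)) (by positivity)
  refine (hf.and_eventually (eventually_ge_atTop 2)).mono ?_
  rintro N ⟨h3 | ⟨z, h3, h4⟩, hN⟩
  · have h4 : Near n (N + 2) c _ := key1 c hc N hN h3
    refine Pool.Agent.T2H09.LV.Near.mono h4 le_rfl
      (Pool.Agent.T2H09.LW.rpow_le_of_le2 hm hN (by positivity) ?_)
    rw [Real.exp_neg]
    exact inv_anti₀ (Real.exp_pos _) h3
  · exact Pool.Agent.T2H09.LV.Near.mono (key2 c hc N hN z h3 h4) le_rfl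
      (Pool.Agent.T2H09.LW.rpow_le_of_le2 hm hN (norm_nonneg _) h3)

end Pool.Agent.Results.MP_af9036_an.QuasiPolynomialGrowth
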